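import Pool.Agent.R191.FD.Main
import Pool.Agent.R191.FD.Arith
import Pool.Agent.R191.FD.Char
import Pool.Agent.R191.FD.Avg
import Pool.Agent.R191.FD.Sparse

/-!
# Furstenberg's orbit closure conjecture for numbers with independent random digits

Let the base `a` digits of `x` be independent random variables, with arbitrary distributions, such that
`x` has no atoms, and let `t` be any real number. Almost surely the orbit of `t + x` under
multiplication by `b` is dense modulo one for every `b` which is not divisible by some prime factor of
`a`. For example: for every `t`, every infinite set `S` of positions and almost every choice of digits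
`0`, `1` at these positions (all other digits of `x` being `0`) all these orbits of `t + x` are dense,
however sparse `S` is; if `t = 0` and the gaps of `S` tend to infinity, then the closure of the orbit of
`x` under multiplication by `a` is countable.

Proof: for every `K` there are exponents `m 1, …, m R` such that the differences
`b ^ m r - b ^ m s`, divided by `a ^ k`, stay away from the integers for a positive proportion of the
`k ≤ K`. So the Fourier transform of the law of `x` is small at the multiples of these differences, the
averages of `exp (2 π i h b ^ m r x)` are small in mean square, and an orbit cannot avoid an interval.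
-/

set_option autoImplicit false

namespace Pool.Agent.Results.MP_c9a594_an.IndependentDigits

open MeasureTheory ProbabilityTheory Filter Topology Set Pool.Agent.R191.FD

/-- the number with the base `a` digits `d 0, d 1, …` after the point -/
noncomputable def number (a : ℕ) (d : ℕ → ℕ) : ℝ := ∑' k, (d k : ℝ) / (a : ℝ) ^ (k + 1)

/-- the closure of the orbit of `x` modulo one under multiplication by `m` -/
noncomputable def O (m : ℕ) (x : ℝ) : Set ℝ :=
  closure (range fun n : ℕ => Int.fract ((m : ℝ) ^ n * x))

/-- for every `L`, any two nonzero digits with large indices have distance greater than `L` -/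
def Sparse (d : ℕ → ℕ) : Prop :=
  ∀ L : ℕ, ∀ᶠ k in atTop, ∀ j : ℕ, k < j → j ≤ k + L → d k = 0 ∨ d j = 0

/-- Let `X 0, X 1, …` be independent random base `a` digits (no assumption on their distributions)
such that the random number `x = ∑ X k / a ^ (k + 1)` has no atoms, and let `t` be a real number. Almost
surely: `t + x` is irrational, for every `b ≥ 2` which is not divisible by some prime factor of `a` the
orbit of `t + x` under multiplication by `b` is dense modulo one, so that the inequality of Q1 holds for
`a`, `b` and `t + x`, and if the digits are sparse, then the orbit closure of `x` for the base `a` has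
dimension zero. -/
theorem result (a : ℕ) (ha : 2 ≤ a) (Ω : Type) [MeasurableSpace Ω] (P : Measure Ω)
    [IsProbabilityMeasure P] (X : ℕ → Ω → ℕ) (hmeas : ∀ k, Measurable (X k))
    (hind : iIndepFun X P) (hdig : ∀ k ω, X k ω < a)
    (hat : ∀ r : ℝ, P {ω | number a (fun k => X k ω) = r} = 0) (t : ℝ) :
    ∀ᵐ ω ∂P, Irrational (t + number a fun k => X k ω) ∧
      (∀ b : ℕ, 2 ≤ b → (∃ p : ℕ, p.Prime ∧ p ∣ a ∧ ¬ p ∣ b) →
        O b (t + number a fun k => X k ω) = Icc 0 1 ∧
        1 ≤ dimH (O a (t + number a fun k => X k ω)) +
          dimH (O b (t + number a fun k => X k ω))) ∧
      (Sparse (fun k => X k ω) → dimH (O a (number a fun k => X k ω)) = 0) := by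
  have h := main_of (P := P) arith char avg ha (X := X) ⟨hmeas, hind, hdig⟩ hat t
  filter_upwards [h] with ω hω
  refine ⟨hω.1, fun b hb hab => ?_, fun hs => sparse a ha _ (fun k => hdig k ω) hs⟩
  have h1 : O b (t + number a fun k => X k ω) = Icc 0 1 := hω.2 b hb hab
  refine ⟨h1, ?_⟩
  have h2 : dimH (O b (t + number a fun k => X k ω)) = 1 := by
    rw [h1]
    have h3 : (interior (Icc (0 : ℝ) 1)).Nonempty := by
      rw [interior_Icc]; exact ⟨1 / 2, by norm_num, by norm_num⟩
    rw [Real.dimH_of_nonempty_interior h3]
    simp
  rw [h2]
  exact le_add_self

end Pool.Agent.Results.MP_c9a594_an.IndependentDigits
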