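import Pool.Agent.R544.FD.Mul

/-!
# Furstenberg's orbit closure conjecture: at most one exception on a rational line `x + ℚ α`

The dimension of the orbit closure is subadditive and invariant under rational affine maps.
-/

set_option autoImplicit false

namespace Pool.Agent.Results.MP_c9a594_an.OneExceptionPerLine

open scoped ENNReal

/-- the Hausdorff dimension of the closure of the orbit of `x` modulo one under multiplication by
`b` -/
noncomputable def D (b : ℕ) (x : ℝ) : ℝ≥0∞ :=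
  dimH (closure (Set.range fun n : ℕ => Int.fract ((b : ℝ) ^ n * x)))

/-- Let `a, b ≥ 2`.

(1) `D b (x + y) ≤ D b x + D b y` and `D b (r x + q) = D b x` for all real `x, y` and rational
`r ≠ 0`, `q`.

(2) The real numbers `x` with `D a x = 0` and `D b x = 0` form a vector space over `ℚ` which contains
`ℚ`.

(3) For all real `x, α` there is an `m₀` such that for all rational `m ≠ m₀` and all rational `q` the
number `t = x + m α + q` satisfies `D a t + D b t ≥ (D a α + D b α) / 2`.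

(4) If the orbits of `α` under multiplication by `a` and by `b` are dense modulo one, then for every
real `x` there is an `m₀` such that for all rational `m ≠ m₀` and all rational `q` the number
`t = x + m α + q` satisfies Furstenberg's inequality `D a t + D b t ≥ 1`. -/
theorem result :
    (∀ b : ℕ, 2 ≤ b → (∀ x y : ℝ, D b (x + y) ≤ D b x + D b y) ∧
      ∀ (x : ℝ) (r q : ℚ), r ≠ 0 → D b (r * x + q) = D b x) ∧
    (∀ a b : ℕ, 2 ≤ a → 2 ≤ b → ∃ Z : Submodule ℚ ℝ, (∀ x : ℝ, x ∈ Z ↔ D a x = 0 ∧ D b x = 0) ∧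
      ∀ q : ℚ, (q : ℝ) ∈ Z) ∧
    (∀ a b : ℕ, 2 ≤ a → 2 ≤ b → ∀ x α : ℝ, ∃ m₀ : ℚ, ∀ m : ℚ, m ≠ m₀ → ∀ q : ℚ,
      D a α + D b α ≤ 2 * (D a (x + m * α + q) + D b (x + m * α + q))) ∧
    (∀ a b : ℕ, 2 ≤ a → 2 ≤ b → ∀ α : ℝ,
      closure (Set.range fun n : ℕ => Int.fract ((a : ℝ) ^ n * α)) = Set.Icc 0 1 →
      closure (Set.range fun n : ℕ => Int.fract ((b : ℝ) ^ n * α)) = Set.Icc 0 1 →
      ∀ x : ℝ, ∃ m₀ : ℚ, ∀ m : ℚ, m ≠ m₀ → ∀ q : ℚ,
        1 ≤ D a (x + m * α + q) + D b (x + m * α + q)) := by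
  have hplus : ∀ b : ℕ, 2 ≤ b → ∀ x y : ℝ, D b (x + y) ≤ D b x + D b y := fun b hb x y =>
    Pool.Agent.R544.FD.dim_plus b hb x y
  have haff : ∀ b : ℕ, 2 ≤ b → ∀ (x : ℝ) (r q : ℚ), r ≠ 0 → D b (r * x + q) = D b x :=
    fun b hb x r q hr => Pool.Agent.R544.FD.dim_affine b hb x r q hr
  have hzero : ∀ b : ℕ, D b 0 = 0 := fun b => Pool.Agent.R544.FD.dim_zero b
  have hrat : ∀ b : ℕ, 2 ≤ b → ∀ q : ℚ, D b q = 0 := by
    intro b hb q
    have h := haff b hb 0 1 q one_ne_zero
    rw [mul_zero, zero_add] at h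
    rw [h, hzero]
  have hline : ∀ a b : ℕ, 2 ≤ a → 2 ≤ b → ∀ x α : ℝ, ∃ m₀ : ℚ, ∀ m : ℚ, m ≠ m₀ → ∀ q : ℚ,
      D a α + D b α ≤ 2 * (D a (x + m * α + q) + D b (x + m * α + q)) := by
    intro a b ha hb x α
    by_cases hall : ∀ m q : ℚ, D a α + D b α ≤ 2 * (D a (x + m * α + q) + D b (x + m * α + q))
    · exact ⟨0, fun m _ q => hall m q⟩
    · simp only [not_forall, not_le] at hall
      obtain ⟨m₀, q₀, h0⟩ := hall
      refine ⟨m₀, fun m hm q => ?_⟩
      by_contra hcon
      rw [not_le] at hcon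
      -- the difference of the two numbers
      have hkey : ∀ c : ℕ, 2 ≤ c → D c α ≤ D c (x + m * α + q) + D c (x + m₀ * α + q₀) := by
        intro c hc
        have h1 := haff c hc α (m - m₀) (q - q₀) (sub_ne_zero.2 hm)
        have h2 := hplus c hc (x + m * α + q) (-(x + m₀ * α + q₀))
        have h3 := haff c hc (x + m₀ * α + q₀) (-1) 0 (by norm_num)
        have e3 : (((-1 : ℚ) : ℝ)) * (x + m₀ * α + q₀) + ((0 : ℚ) : ℝ) = -(x + m₀ * α + q₀) := by
          push_cast
          ring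
        have e1 : ((m - m₀ : ℚ) : ℝ) * α + ((q - q₀ : ℚ) : ℝ) =
            x + m * α + q + -(x + m₀ * α + q₀) := by
          push_cast
          ring
        rw [e3] at h3
        rw [e1] at h1
        rw [h3] at h2
        rw [← h1]
        exact h2
      have h4 := hkey a ha
      have h5 := hkey b hb
      have h6 : 2 * (D a α + D b α) ≤ 2 * (D a (x + m * α + q) + D b (x + m * α + q)) +
          2 * (D a (x + m₀ * α + q₀) + D b (x + m₀ * α + q₀)) := by
        calc 2 * (D a α + D b α) ≤ 2 * ((D a (x + m * α + q) + D a (x + m₀ * α + q₀)) +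
              (D b (x + m * α + q) + D b (x + m₀ * α + q₀))) :=
            mul_le_mul_right (add_le_add h4 h5) 2
          _ = _ := by ring
      have h7 := ENNReal.add_lt_add hcon h0
      have h8 : D a α + D b α + (D a α + D b α) = 2 * (D a α + D b α) := by ring
      rw [h8] at h7
      exact absurd h6 (not_le.2 h7)
  refine ⟨fun b hb => ⟨hplus b hb, haff b hb⟩, fun a b ha hb => ?_, hline, ?_⟩
  · have hadd : ∀ {x y : ℝ}, x ∈ {x : ℝ | D a x = 0 ∧ D b x = 0} → y ∈ {x : ℝ | D a x = 0 ∧ D b x = 0} →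
        x + y ∈ {x : ℝ | D a x = 0 ∧ D b x = 0} := by
      rintro x y ⟨h1, h2⟩ ⟨h3, h4⟩
      refine ⟨?_, ?_⟩
      · have := hplus a ha x y
        rw [h1, h3, add_zero] at this
        exact le_antisymm this bot_le
      · have := hplus b hb x y
        rw [h2, h4, add_zero] at this
        exact le_antisymm this bot_le
    have hsmul : ∀ (r : ℚ) {x : ℝ}, x ∈ {x : ℝ | D a x = 0 ∧ D b x = 0} →
        r • x ∈ {x : ℝ | D a x = 0 ∧ D b x = 0} := by
      rintro r x ⟨h1, h2⟩
      rcases eq_or_ne r 0 with rfl | hr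
      · rw [zero_smul]
        exact ⟨hzero a, hzero b⟩
      · have e : r • x = (r : ℝ) * x + ((0 : ℚ) : ℝ) := by
          rw [Rat.smul_def]
          simp
        rw [e]
        exact ⟨by rw [haff a ha x r 0 hr]; exact h1, by rw [haff b hb x r 0 hr]; exact h2⟩
    exact ⟨⟨⟨⟨{x : ℝ | D a x = 0 ∧ D b x = 0}, hadd⟩, ⟨hzero a, hzero b⟩⟩, hsmul⟩, fun x => Iff.rfl,
      fun q => ⟨hrat a ha q, hrat b hb q⟩⟩
  · intro a b ha hb α h1 h2 x
    have hone : dimH (Set.Icc (0 : ℝ) 1) = 1 := by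
      have h3 : (interior (Set.Icc (0 : ℝ) 1)).Nonempty := by
        rw [interior_Icc]; exact ⟨1 / 2, by norm_num, by norm_num⟩
      rw [Real.dimH_of_nonempty_interior h3]
      simp
    obtain ⟨m₀, hm₀⟩ := hline a b ha hb x α
    refine ⟨m₀, fun m hm q => ?_⟩
    have h4 := hm₀ m hm q
    have h5 : D a α = 1 := by
      unfold D
      rw [h1, hone]
    have h6 : D b α = 1 := by
      unfold D
      rw [h2, hone]
    rw [h5, h6] at h4
    by_contra hcon
    rw [not_le] at hcon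
    have h7 : 2 * (D a (x + m * α + q) + D b (x + m * α + q)) < 2 * 1 :=
      (ENNReal.mul_lt_mul_iff_right (by norm_num) (by norm_num)).2 hcon
    have h8 : (2 : ℝ≥0∞) * 1 = 1 + 1 := by norm_num
    rw [h8] at h7
    exact absurd h4 (not_le.2 h7)

end Pool.Agent.Results.MP_c9a594_an.OneExceptionPerLine
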