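import Pool.Agent.R501.FR3

/-!
# Furstenberg's conjecture for numbers with long periodic runs of digits in one base

Let `a, b ≥ 2` be coprime and `ρ > 0` arbitrarily small. A real number `x` has a dense orbit under the multiplication by
`b` modulo one, and satisfies Furstenberg's inequality, if for infinitely many `n` it is at a distance of at most
`exp(-a ^ (ρ n))` from a fraction with the denominator `a ^ n m`, where `m ≤ a ^ (δ n)`, `δ = δ(a, b, ρ) > 0`; for
instance, if its expansion in base `a` contains, for infinitely many `n`, a run of zeros from the place `n` to the place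
`a ^ (ρ n)`, or a periodic run with a period of at most `δ n`. The orbit closure under the multiplication by `a` may then
be countable: this is the case about which the theorem of Shmerkin and Wu gives no information.

Proof. Let `Y = b ^ (D φ(a²)) - 1`, where `D` is the period of `1 / m` in base `b`, and let `s` be about `n / (k + 1)`. Modulo
one, the points `b ^ (n₀ + D φ(a²) a ^ s t) c / (a ^ n m)`, `t = 0, 1, …`, are the values of a polynomial of degree `k`
in `t`, since `b ^ (D φ(a²) a ^ s) - 1` is divisible by `a ^ s Y` and `(a ^ s) ^ (k + 1)` by `a ^ n`. Its leading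
coefficient is a fraction, the denominator of which has a large power of some prime factor of `a` (lifting the exponent)
and is at most `k! a ^ (n / (k + 1))`. By Weyl's inequality the values are nearly equidistributed for
`t ≤ C a ^ (n / (k + 1))`: so the first `a ^ (ρ n)` points of the orbit of the fraction are nearly dense.
-/

set_option autoImplicit false

namespace Pool.Agent.Results.MP_c9a594_an.PeriodicRuns

/-- the closure of the orbit of `x` under `x ↦ b x mod 1` -/
def orb (b : ℕ) (x : ℝ) : Set ℝ := closure (Set.range fun n : ℕ => Int.fract ((b : ℝ) ^ n * x))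

/-- The expansion of `1 / m` in base `b` is periodic with a preperiod `n₀ ≤ ν` and a (not necessarily minimal) period
`D ≤ ν`: the integer `m` divides `b ^ n₀ (b ^ D - 1)`. -/
def Per (b m : ℕ) (ν : ℝ) : Prop := ∃ n₀ D : ℕ, 1 ≤ D ∧ (n₀ : ℝ) ≤ ν ∧ (D : ℝ) ≤ ν ∧ m ∣ b ^ n₀ * (b ^ D - 1)

/-- Let `a, b ≥ 2` be coprime and `ρ > 0`. There is `δ > 0` with the following properties.

(1) For every `ε > 0` and every large `n`: for all integers `c` which are not divisible by `a` and all `m ≥ 1` with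
`Per b m (a ^ (δ n))`, the first points of the orbit of the fraction `c / (a ^ n m)` under the multiplication by `b`, up to
the index `a ^ (ρ n)`, are `ε`-dense modulo one.

(2) Let `x` be a real number. If for infinitely many `n` there are an integer `c` which is not divisible by `a` and
`m ≥ 1` with `Per b m (a ^ (δ n))` such that `|x - c / (a ^ n m)| ≤ exp(-a ^ (ρ n))`, then the orbit of `x` under the
multiplication by `b` is dense in `[0, 1]`, and the sum of the Hausdorff dimensions of the orbit closures of `x` under the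
multiplications by `a'` and by `b` is at least one, for all integers `a'` (in particular for `a' = a`).

(3) All the integers `m` with `1 ≤ m ≤ a ^ (δ n)` satisfy `Per b m (a ^ (δ n))`. -/
theorem result {a b : ℕ} (ha : 2 ≤ a) (hb : 2 ≤ b) (hab : Nat.Coprime a b) {ρ : ℝ} (hρ : 0 < ρ) :
    ∃ δ : ℝ, 0 < δ ∧
      (∀ ε : ℝ, 0 < ε → ∃ N₀ : ℕ, ∀ n : ℕ, N₀ ≤ n → ∀ (c : ℤ) (m : ℕ), ¬ (a : ℤ) ∣ c → 1 ≤ m →
        Per b m ((a : ℝ) ^ (δ * n)) → ∀ y : ℝ, ∃ i : ℕ, (i : ℝ) ≤ (a : ℝ) ^ (ρ * n) ∧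
          ∃ z : ℤ, |(b : ℝ) ^ i * (c / ((a : ℝ) ^ n * m)) - y - z| < ε) ∧
      (∀ x : ℝ, (∀ K : ℕ, ∃ n : ℕ, K ≤ n ∧ ∃ (c : ℤ) (m : ℕ), ¬ (a : ℤ) ∣ c ∧ 1 ≤ m ∧ Per b m ((a : ℝ) ^ (δ * n)) ∧
        |x - c / ((a : ℝ) ^ n * m)| ≤ Real.exp (-(a : ℝ) ^ (ρ * n))) →
          orb b x = Set.Icc 0 1 ∧ ∀ a' : ℕ, 1 ≤ dimH (orb a' x) + dimH (orb b x)) ∧
      ∀ (n m : ℕ), 1 ≤ m → (m : ℝ) ≤ (a : ℝ) ^ (δ * n) → Per b m ((a : ℝ) ^ (δ * n)) := by
  obtain ⟨δ1, hδ1, h1⟩ := Pool.Agent.R501.FR.dense_short ha hb hab hρ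
  obtain ⟨δ2, hδ2, h2⟩ := Pool.Agent.R501.FR.dense_orbit ha hb hab hρ
  have ha1 : (1 : ℝ) ≤ a := by exact_mod_cast (by omega : 1 ≤ a)
  have hmono : ∀ (δ δ' : ℝ) (n : ℕ), δ ≤ δ' → (a : ℝ) ^ (δ * n) ≤ (a : ℝ) ^ (δ' * n) := fun δ δ' n h =>
    Real.rpow_le_rpow_of_exponent_le ha1 (mul_le_mul_of_nonneg_right h (Nat.cast_nonneg n))
  have hcast : ∀ n m : ℕ, ((a ^ n * m : ℕ) : ℝ) = (a : ℝ) ^ n * m := fun n m => by push_cast; ring
  refine ⟨min δ1 δ2, lt_min hδ1 hδ2, fun ε hε => ?_, fun x hx => ?_, fun n m hm hmn => ?_⟩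
  · obtain ⟨N₀, h⟩ := h1 ε hε
    refine ⟨N₀, fun n hn c m hc hm hper y => ?_⟩
    obtain ⟨n₀, D, hD, hn₀, hDle, hdvd⟩ := hper
    have h3 := h n hn c m n₀ D hc hm hD (hn₀.trans (hmono _ _ n (min_le_left _ _))) (hDle.trans (hmono _ _ n (min_le_left _ _)))
      hdvd y
    rw [hcast] at h3
    exact h3
  · have h3 : Pool.Agent.Y943.Fu.orb b x = Set.Icc 0 1 := by
      apply h2 x
      intro K
      obtain ⟨n, hn, c, m, hc, hm, ⟨n₀, D, hD, hn₀, hDle, hdvd⟩, hclose⟩ := hx K
      refine ⟨n, hn, c, m, n₀, D, hc, hm, hD, hn₀.trans (hmono _ _ n (min_le_right _ _)),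
        hDle.trans (hmono _ _ n (min_le_right _ _)), hdvd, ?_⟩
      rw [hcast]
      exact hclose
    have h4 : dimH (orb b x) = 1 := Pool.Agent.Y943.Fu.dimH_orb h3
    refine ⟨h3, fun a' => ?_⟩
    rw [h4]
    exact le_add_self
  · obtain ⟨n₀, D, hD, hn₀, hDle, hdvd⟩ := Pool.Agent.R501.FR.period b (by omega) m hm
    exact ⟨n₀, D, hD, le_trans (by exact_mod_cast hn₀) hmn, le_trans (by exact_mod_cast hDle) hmn, hdvd⟩

end Pool.Agent.Results.MP_c9a594_an.PeriodicRuns
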