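import Mathlib
import Pool.Agent.R473.TB.Fin
import Pool.Agent.H326R2.Pi.Top

set_option autoImplicit false

/-!
# Predicting the digits of a real number in two coprime bases
-/

namespace Pool.Agent.Results.MP_c9a594_an.TwoBasePredictors

/-- the `k`-th digit after the point of `x` in base `b` (`k = 0` is the first one) -/
noncomputable def digit (b : ℕ) (x : ℝ) (k : ℕ) : ℤ := ⌊(b : ℝ) ^ (k + 1) * x⌋ % b

/-- the number of different blocks of `n` consecutive letters of the word `w` -/
noncomputable def blocks (w : ℕ → ℤ) (n : ℕ) : ℕ :=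
  (Set.range fun i : ℕ => fun j : Fin n => w (i + j)).ncard

/-- A word over the alphabet `{0, ..., b - 1}` with at most `C n` blocks of length `n`
for every `n ≥ 1`. -/
structure Simple (b : ℕ) (C : ℝ) (w : ℕ → ℤ) : Prop where
  alphabet : ∀ k, 0 ≤ w k ∧ w k < b
  complexity : ∀ n : ℕ, 1 ≤ n → (blocks w n : ℝ) ≤ C * n

/-- A predictor with `K` states. In the state `s` it announces the letter `out s`; then it reads
the true letter `d` and moves to the state `step s d`. -/
structure Predictor (K : ℕ) where
  /-- the announced letter -/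
  out : Fin K → ℤ
  /-- the next state -/
  step : Fin K → ℤ → Fin K
  /-- the initial state -/
  start : Fin K

/-- the state before reading the letter with index `k` of the word `D` -/
def Predictor.state {K : ℕ} (P : Predictor K) (D : ℕ → ℤ) : ℕ → Fin K
  | 0 => P.start
  | k + 1 => P.step (P.state D k) (D k)

/-- the number of wrong predictions of the predictor among the first `M` letters of `D` -/
def Predictor.errors {K : ℕ} (P : Predictor K) (D : ℕ → ℤ) (M : ℕ) : ℕ :=
  ((Finset.range M).filter fun k => P.out (P.state D k) ≠ D k).card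

lemma state_eq {K : ℕ} (P : Predictor K) (D : ℕ → ℤ) (k : ℕ) :
    P.state D k = Pool.Agent.R473.TB.st P.step P.start D k := by
  induction k with
  | zero => rfl
  | succ k ih => rw [Predictor.state, Pool.Agent.R473.TB.st, ih]

lemma errors_eq {K : ℕ} (P : Predictor K) (D : ℕ → ℤ) (M : ℕ) :
    P.errors D M = Pool.Agent.R473.TB.errs P.out P.step P.start D M := by
  unfold Predictor.errors Pool.Agent.R473.TB.errs
  simp only [state_eq]

/-- `π` is not a Liouville number -/
theorem pi_not_liouville : ¬ Liouville Real.pi := by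
  intro hl
  obtain ⟨q0, hq0⟩ := Pool.Agent.H326R2.Pi.main
  obtain ⟨b, ⟨a, _, h1⟩, h2⟩ := ((hl.frequently_exists_num 7).and_eventually
    (Filter.eventually_ge_atTop (max q0 1))).exists
  have hb1 : 1 ≤ b := (le_max_right _ _).trans h2
  have h3 := hq0 b ((le_max_left _ _).trans h2) a
  have hb : (1 : ℝ) ≤ b := by exact_mod_cast hb1
  have h4 : (1 : ℝ) / (b : ℝ) ^ 7 ≤ (b : ℝ) ^ (-(6.05 : ℝ)) := by
    rw [one_div, ← Real.rpow_natCast, ← Real.rpow_neg (by positivity)]
    exact Real.rpow_le_rpow_of_exponent_le hb (by norm_num)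
  linarith

/-- **Result.** Let `a, b ≥ 2` be coprime, let `u` and `v` be words of at most linear block
complexity over `{0, ..., a - 1}` and `{0, ..., b - 1}`, let `θ < 1` and `A` be real numbers, and
let `x` be an irrational number which is not a Liouville number (for instance `π`). Then for every
sufficiently large `M` the following holds: if one predictor with at most `M ^ θ` states reads the
differences between the digits of `x` in base `a` and the letters of `u`, and another predictor
with at most `M ^ θ` states reads the differences between the digits of `x` in base `b` and the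
letters of `v`, then together they make more than `A log M` wrong predictions among the
first `M` places. -/
theorem result {a b : ℕ} (ha : 2 ≤ a) (hb : 2 ≤ b) (hab : Nat.Coprime a b) {C : ℝ}
    {u v : ℕ → ℤ} (hu : Simple a C u) (hv : Simple b C v) {θ : ℝ} (hθ : θ < 1) (A : ℝ) :
    (∀ x : ℝ, Irrational x → ¬ Liouville x → ∃ M0 : ℕ, ∀ M : ℕ, M0 ≤ M → ∀ K L : ℕ,
      (K : ℝ) ≤ (M : ℝ) ^ θ → (L : ℝ) ≤ (M : ℝ) ^ θ → ∀ (P : Predictor K) (Q : Predictor L),
      A * Real.log M < P.errors (fun k => digit a x k - u k) M +
        Q.errors (fun k => digit b x k - v k) M) ∧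
    (∃ M0 : ℕ, ∀ M : ℕ, M0 ≤ M → ∀ K L : ℕ,
      (K : ℝ) ≤ (M : ℝ) ^ θ → (L : ℝ) ≤ (M : ℝ) ^ θ → ∀ (P : Predictor K) (Q : Predictor L),
      A * Real.log M < P.errors (fun k => digit a Real.pi k - u k) M +
        Q.errors (fun k => digit b Real.pi k - v k) M) := by
  have key : ∀ x : ℝ, Irrational x → ¬ Liouville x → ∃ M0 : ℕ, ∀ M : ℕ, M0 ≤ M → ∀ K L : ℕ,
      (K : ℝ) ≤ (M : ℝ) ^ θ → (L : ℝ) ≤ (M : ℝ) ^ θ → ∀ (P : Predictor K) (Q : Predictor L),
      A * Real.log M < P.errors (fun k => digit a x k - u k) M +
        Q.errors (fun k => digit b x k - v k) M := by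
    intro x hx hl
    obtain ⟨M0, hM0⟩ := Pool.Agent.R473.TB.main ha hb hab hx hl hu.alphabet hv.alphabet
      hu.complexity hv.complexity hθ A
    refine ⟨M0, fun M hM K L hK hL P Q => ?_⟩
    rw [errors_eq, errors_eq]
    exact hM0 M hM K L hK hL P.out P.step P.start Q.out Q.step Q.start
  exact ⟨key, key _ irrational_pi pi_not_liouville⟩

end Pool.Agent.Results.MP_c9a594_an.TwoBasePredictors
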